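import Mathlib
import Pool.Agent.Helper975.RDR.Main

set_option autoImplicit false

universe u

open Pool.Agent.Helper975.RDR

namespace Pool.Agent.Results.MP_54a553_al.IndependentDefectRdr

/-- Let `(K, v)` be a henselian field with a nontrivial valuation (valuation ring `A`).  If every
algebraic extension `(L, B)` of `(K, A)` is an independent defect field, then `(K, v)` is roughly
deeply ramified. -/
theorem result (K : Type u) [Field K] (A : ValuationSubring K) (hnontrivial : A ≠ ⊤)
    (hhenselian : IsHenselianField A)
    (hindependent : ∀ (L : Type u) [Field L] [Algebra K L] [Algebra.IsAlgebraic K L]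
      (B : ValuationSubring L), B.comap (algebraMap K L) = A → IsIndependentDefectField B) :
    IsRoughlyDeeplyRamified A :=
  Q1_true K A hnontrivial hhenselian hindependent

end Pool.Agent.Results.MP_54a553_al.IndependentDefectRdr
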